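import Pool.Agent.H981.Sen.Final
import Pool.Agent.H981.Sen.Below

set_option autoImplicit false

/-!
# The threshold exponent for the power means of critical-point distances is `-1` in large degree

For `s > 1` the power mean `M_{-s}` of the distances from a zero to the critical points is at most
`1` for all polynomials of large degree with zeros in the closed unit disc, with equality only for
`c (z ^ n - a ^ n)`, `|a| = 1`; for `0 < s < 1` this fails in every degree `n ≥ 3`.
-/

open Polynomial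

namespace Pool.Agent.Results.MP_f0bc87_an.ThresholdExponent

open Pool.Agent.H981.Sen

/-- `c (z ^ n - a ^ n)` with `|a| = 1`: all critical points are at distance one from `a` -/
lemma extremal_sum {p : ℂ[X]} {a : ℂ} (hn : 2 ≤ p.natDegree) (ha1 : ‖a‖ = 1)
    (hpe : p = C p.leadingCoeff * (X ^ p.natDegree - C (a ^ p.natDegree))) (s : ℝ) :
    ((derivative p).roots.map (fun w : ℂ => ‖w - a‖⁻¹ ^ s)).sum = ((p.natDegree - 1 : ℕ) : ℝ) := by
  have hp0 : p ≠ 0 := by
    rintro rfl
    simp at hn
  obtain ⟨c, hc⟩ : ∃ c, c = p.leadingCoeff := ⟨_, rfl⟩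
  obtain ⟨n, hnd⟩ : ∃ n, n = p.natDegree := ⟨_, rfl⟩
  have hc0 : c ≠ 0 := by rw [hc]; exact leadingCoeff_ne_zero.2 hp0
  rw [← hc, ← hnd] at hpe
  have hder : derivative p = C (c * n) * X ^ (n - 1) := by
    rw [hpe, derivative_C_mul, derivative_sub, derivative_X_pow, derivative_C, sub_zero,
      ← mul_assoc, ← C_mul]
  have hn0 : (c * n : ℂ) ≠ 0 := by
    apply mul_ne_zero hc0
    exact_mod_cast (by omega : n ≠ 0)
  have hroots : (derivative p).roots = Multiset.replicate (n - 1) 0 := by
    rw [hder, roots_C_mul _ hn0, roots_pow, roots_X, Multiset.nsmul_singleton]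
  rw [hroots, ← hnd, Multiset.map_replicate, Multiset.sum_replicate, zero_sub, norm_neg, ha1,
    inv_one, Real.one_rpow, nsmul_eq_mul, mul_one]

/-- `(z - 1)(z + 1)^(k + 1)`: every exponent below one fails (Bernoulli's inequality) -/
lemma bad_lt {k : ℕ} (hk : 1 ≤ k) {s : ℝ} (hs0 : 0 < s) (hs : s < 1) :
    ((derivative (bad k)).roots.map (fun w : ℂ => ‖w - 1‖⁻¹ ^ s)).sum < ((k + 1 : ℕ) : ℝ) := by
  rw [bad_sum]
  have hk0 : (0 : ℝ) < k := by exact_mod_cast hk
  have h1 : (1 / 2 : ℝ) ^ s < 1 + s * (-(1 / 2)) := by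
    have h := rpow_one_add_lt_one_add_mul_self (s := (-(1 / 2) : ℝ)) (by norm_num)
      (by norm_num) hs0 hs
    have e : (1 : ℝ) + -(1 / 2) = 1 / 2 := by norm_num
    rwa [e] at h
  have h2 : (((k : ℝ) + 2) / 2) ^ s < 1 + s * ((k : ℝ) / 2) := by
    have h := rpow_one_add_lt_one_add_mul_self (s := (k : ℝ) / 2) (by linarith)
      (by positivity) hs0 hs
    have e : (1 : ℝ) + (k : ℝ) / 2 = ((k : ℝ) + 2) / 2 := by ring
    rwa [e] at h
  push_cast
  nlinarith

/-- **The threshold exponent in large degree.** -/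
theorem result :
    -- (1) above one: for every `s₀ > 1` there is `N` such that for all polynomials `p` of degree
    -- `n ≥ N` with zeros in the closed unit disc, all zeros `a` of `p` which are not critical
    -- points and all `s ≥ s₀`: `∑ |w - a|^(-s) ≥ n - 1`, with equality iff `|a| = 1` and
    -- `p = c (z^n - a^n)`
    (∀ s₀ : ℝ, 1 < s₀ → ∃ N : ℕ, ∀ p : ℂ[X], N ≤ p.natDegree → (∀ z ∈ p.roots, ‖z‖ ≤ 1) →
      ∀ a ∈ p.roots, a ∉ (derivative p).roots → ∀ s : ℝ, s₀ ≤ s →
        ((p.natDegree - 1 : ℕ) : ℝ) ≤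
          ((derivative p).roots.map (fun w : ℂ => ‖w - a‖⁻¹ ^ s)).sum ∧
        (((derivative p).roots.map (fun w : ℂ => ‖w - a‖⁻¹ ^ s)).sum =
            ((p.natDegree - 1 : ℕ) : ℝ) ↔
          ‖a‖ = 1 ∧ p = C p.leadingCoeff * (X ^ p.natDegree - C (a ^ p.natDegree)))) ∧
    -- (2) below one: in every degree `n ≥ 3` some polynomial with zeros in the closed unit disc and
    -- some zero `a`, not a critical point, satisfy `∑ |w - a|^(-s) < n - 1` for all `0 < s < 1`
    (∀ n : ℕ, 3 ≤ n → ∃ p : ℂ[X], p.natDegree = n ∧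
      (∀ z ∈ p.roots, ‖z‖ ≤ 1) ∧ ∃ a ∈ p.roots, a ∉ (derivative p).roots ∧
        ∀ s : ℝ, 0 < s → s < 1 →
          ((derivative p).roots.map (fun w : ℂ => ‖w - a‖⁻¹ ^ s)).sum < ((n - 1 : ℕ) : ℝ)) := by
  refine ⟨fun s₀ hs₀ => ?_, fun n hn => ?_⟩
  · set t := min s₀ 2 with ht
    have ht1 : 1 < t := lt_min hs₀ (by norm_num)
    have ht2 : t ≤ 2 := min_le_right _ _
    obtain ⟨N, hN⟩ := eventually_large ht1
    refine ⟨N + 1, fun p hpN hp a ha hd s hs => ?_⟩
    have hL : Large t (p.natDegree - 1) := hN _ (by omega)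
    have hn : 2 ≤ p.natDegree := by have := hL.1; omega
    have hts : t ≤ s := (min_le_left _ _).trans hs
    have ht0 : 0 < t := by linarith
    obtain ⟨h1, h2⟩ := one_exponent ht1 ht2 hL hp ha hd
    have hcard := Pool.Agent.Results.MP_f0bc87_an.AllNegativeExponents.card_der hn
    have h3 := sum_bern ht0 hts (derivative p).roots a
    rw [hcard] at h3
    have hst : 0 < s / t := div_pos (by linarith) ht0
    refine ⟨?_, fun h => ?_, fun h => extremal_sum hn h.1 h.2 s⟩
    · have := mul_nonneg hst.le (sub_nonneg.2 h1)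
      linarith
    · apply h2
      by_contra hcon
      push Not at hcon
      have := mul_pos hst (sub_pos.2 hcon)
      linarith
  · obtain ⟨k, rfl⟩ : ∃ k, n = k + 2 := ⟨n - 2, by omega⟩
    refine ⟨bad k, bad_natDegree k, ?_, 1, ?_, ?_, fun s hs0 hs => ?_⟩
    · intro z hz
      rw [bad_roots, Multiset.mem_add, Multiset.mem_singleton, Multiset.mem_nsmul] at hz
      rcases hz with rfl | ⟨-, hz⟩
      · simp
      · rw [Multiset.mem_singleton] at hz
        rw [hz]; simp
    · rw [bad_roots]; simp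
    · rw [bad_der_roots, Multiset.mem_add, Multiset.mem_nsmul, Multiset.mem_singleton,
        Multiset.mem_singleton]
      rintro (⟨-, h⟩ | h)
      · norm_num at h
      · have hk : ((k : ℂ) + 2) ≠ 0 := by exact_mod_cast (by omega : k + 2 ≠ 0)
        rw [eq_div_iff hk] at h
        have : (2 : ℂ) = 0 := by linear_combination h
        norm_num at this
    · have e : k + 2 - 1 = k + 1 := by omega
      rw [e]
      exact bad_lt (by omega) hs0 hs

end Pool.Agent.Results.MP_f0bc87_an.ThresholdExponent
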