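import Pool.Agent.H957.SE.Uni

set_option autoImplicit false

/-!
# One exponent below two for all degrees, with a remainder; stability of Sendov's conjecture

`p` is a polynomial of degree `n ≥ 2` with all zeros in the closed unit disc, `a` a zero of `p`,
`w` runs over the critical points of `p` with multiplicity, and
`X = (1 - |a|) + ∑ |w|^2`, which vanishes only for `p = c (z^n - a^n)`, `|a| = 1`.
-/

open Polynomial Filter Topology

namespace Pool.Agent.Results.MP_f0bc87_an.AbsoluteExponent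

open Pool.Agent.H957.SE

lemma sum_map_mul {N : ℕ} {c a : ℂ} {w : Fin N → ℂ} (hc : ‖c‖ = 1)
    (ha : a = c * ((‖a‖ : ℝ) : ℂ)) (s : ℝ) :
    ((Multiset.map (fun k => c * w k) Finset.univ.val).map (fun x : ℂ => ‖x - a‖⁻¹ ^ s)).sum =
      ∑ k, ‖w k - ((‖a‖ : ℝ) : ℂ)‖⁻¹ ^ s := by
  rw [Multiset.map_map]
  change ∑ k, ‖c * w k - a‖⁻¹ ^ s = _
  refine Finset.sum_congr rfl fun k _ => ?_
  have : ‖c * w k - a‖ = ‖w k - ((‖a‖ : ℝ) : ℂ)‖ := by
    conv_lhs => rw [ha]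
    rw [← mul_sub, norm_mul, hc, one_mul]
  rw [this]

lemma sum_map_sq {N : ℕ} {c : ℂ} {w : Fin N → ℂ} (hc : ‖c‖ = 1) :
    ((Multiset.map (fun k => c * w k) Finset.univ.val).map (fun x : ℂ => ‖x‖ ^ 2)).sum =
      ∑ k, ‖w k‖ ^ 2 := by
  rw [Multiset.map_map]
  change ∑ k, ‖c * w k‖ ^ 2 = _
  refine Finset.sum_congr rfl fun k _ => ?_
  rw [norm_mul, hc, one_mul]

/-- one summand is large -/
lemma close {N : ℕ} (hN : 1 ≤ N) (d : Fin N → ℝ) (hd : ∀ k, 0 < d k) {c X : ℝ} (hc : 0 < c)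
    (hX0 : 0 ≤ X) (hX : X ≤ N + 1)
    (h : (N : ℝ) + c * X ≤ ∑ k, (d k)⁻¹ ^ (2 : ℝ)) :
    ∃ k, d k ≤ 1 - c / (2 * N * (1 + 2 * c)) * X := by
  have hN' : (1 : ℝ) ≤ N := by exact_mod_cast hN
  obtain ⟨k, hk⟩ : ∃ k, 1 + c * X / N ≤ (d k)⁻¹ ^ (2 : ℝ) := by
    by_contra hcon
    push Not at hcon
    have hne : (Finset.univ : Finset (Fin N)).Nonempty := ⟨⟨0, by omega⟩, Finset.mem_univ _⟩
    have h1 : ∑ k, (d k)⁻¹ ^ (2 : ℝ) < ∑ _k : Fin N, (1 + c * X / N) :=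
      Finset.sum_lt_sum_of_nonempty hne fun k _ => hcon k
    have h2 : ∑ _k : Fin N, (1 + c * X / N) = N + c * X := by
      simp only [Finset.sum_const, Finset.card_univ, Fintype.card_fin, nsmul_eq_mul]
      field_simp
    linarith
  refine ⟨k, ?_⟩
  rw [Real.rpow_ofNat, inv_pow] at hk
  have hdk := hd k
  obtain ⟨t, ht⟩ : ∃ t : ℝ, t = c * X / N := ⟨_, rfl⟩
  rw [← ht] at hk
  have ht0 : 0 ≤ t := by rw [ht]; positivity
  have ht1 : t ≤ 2 * c := by
    rw [ht, div_le_iff₀ (by linarith)]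
    nlinarith
  have h1 : (d k) ^ 2 * (1 + t) ≤ 1 := by
    have := mul_le_mul_of_nonneg_left hk (by positivity : 0 ≤ (d k) ^ 2)
    rw [mul_inv_cancel₀ (by positivity)] at this
    exact this
  obtain ⟨τ, hτ⟩ : ∃ τ : ℝ, τ = t / (1 + 2 * c) := ⟨_, rfl⟩
  have hτ0 : 0 ≤ τ := by rw [hτ]; positivity
  have hτt : τ * (1 + 2 * c) = t := by rw [hτ]; field_simp
  have hτ1 : τ ≤ 1 := by
    rw [hτ, div_le_one (by positivity)]; linarith
  have h2 : (d k) ^ 2 ≤ 1 - τ := by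
    have h3 : (1 - τ) * (1 + t) ≥ 1 := by nlinarith
    have h4 : (d k) ^ 2 * (1 + t) ≤ (1 - τ) * (1 + t) := by linarith
    exact le_of_mul_le_mul_right h4 (by linarith)
  have h3 : d k ≤ 1 - τ / 2 := by
    have h4 : (d k) ^ 2 ≤ (1 - τ / 2) ^ 2 := by nlinarith
    exact (pow_le_pow_iff_left₀ hdk.le (by linarith) (by norm_num)).1 h4
  have h5 : c / (2 * N * (1 + 2 * c)) * X = τ / 2 := by
    rw [hτ, ht]
    field_simp
  rw [h5]
  exact h3

lemma prod_sub_pow {N : ℕ} (w : Fin N → ℂ) {x : ℂ} {M : ℝ} (hM0 : 0 ≤ M) (hM1 : M ≤ 1)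
    (hw : ∀ k, ‖w k‖ ≤ M) (hx : ‖x‖ ≤ 1) : ‖∏ k, (x - w k) - x ^ N‖ ≤ N * 2 ^ N * M := by
  induction N with
  | zero => simp
  | succ N ih =>
    rw [Fin.prod_univ_castSucc]
    have h1 := ih (fun k => w k.castSucc) (fun k => hw _)
    have h2 : (∏ k : Fin N, (x - w k.castSucc)) * (x - w (Fin.last N)) - x ^ (N + 1) =
        (∏ k : Fin N, (x - w k.castSucc) - x ^ N) * (x - w (Fin.last N))
          - x ^ N * w (Fin.last N) := by
      ring
    rw [h2]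
    refine (norm_sub_le _ _).trans ?_
    rw [norm_mul, norm_mul]
    have h3 : ‖x - w (Fin.last N)‖ ≤ 2 := by
      refine (norm_sub_le _ _).trans ?_
      have := hw (Fin.last N)
      linarith
    have h4 : ‖x ^ N‖ * ‖w (Fin.last N)‖ ≤ 1 * M := by
      apply mul_le_mul _ (hw _) (norm_nonneg _) (by norm_num)
      rw [norm_pow]
      exact pow_le_one₀ (norm_nonneg _) hx
    have h5 : ‖∏ k : Fin N, (x - w k.castSucc) - x ^ N‖ * ‖x - w (Fin.last N)‖ ≤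
        (N * 2 ^ N * M) * 2 := mul_le_mul h1 h3 (norm_nonneg _) (by positivity)
    have h6 : (1 : ℝ) ≤ 2 ^ (N + 1) := one_le_pow₀ (by norm_num)
    push_cast
    have h7 : 1 * M ≤ 2 ^ (N + 1) * M := mul_le_mul_of_nonneg_right h6 hM0
    calc _ ≤ (N * 2 ^ N * M) * 2 + 1 * M := add_le_add h5 h4
      _ ≤ ((N : ℝ) + 1) * 2 ^ (N + 1) * M := by
        rw [pow_succ] at h7 ⊢
        linarith

/-- if the critical points are small then `p` is close to `x^n - a^n` -/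
lemma near {p : ℂ[X]} {N : ℕ} (hn : p.natDegree = N + 1) (hm : p.Monic) {a : ℂ} (ha1 : ‖a‖ ≤ 1)
    (ha : a ∈ p.roots) (v : Fin N → ℂ)
    (hv : (derivative p).roots = Multiset.map v Finset.univ.val) {M : ℝ} (hM0 : 0 ≤ M)
    (hM1 : M ≤ 1) (hvM : ∀ k, ‖v k‖ ≤ M) (x : ℂ) (hx : ‖x‖ ≤ 1) :
    ‖p.eval x - (x ^ (N + 1) - a ^ (N + 1))‖ ≤ 2 * ((N + 1) * (N * 2 ^ N)) * M := by
  have hpa : p.eval a = 0 := (mem_roots hm.ne_zero).1 ha
  have hder : ∀ y, (derivative p).eval y = (N + 1 : ℂ) * ∏ k, (y - v k) := by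
    intro y
    have h1 : (derivative p).leadingCoeff = (N + 1 : ℂ) := by
      rw [leadingCoeff, natDegree_derivative, hn, Nat.add_sub_cancel, coeff_derivative]
      have : p.coeff (N + 1) = 1 := by rw [← hn]; exact hm
      rw [this, one_mul]
    conv_lhs => rw [(IsAlgClosed.splits (derivative p)).eq_prod_roots]
    rw [hv, h1, Multiset.map_map, eval_mul, eval_C]
    change (N + 1 : ℂ) * (∏ k, (X - C (v k))).eval y = _
    rw [eval_prod]
    simp only [eval_sub, eval_X, eval_C]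
  have hbound : ∀ y ∈ Metric.closedBall (0 : ℂ) 1,
      ‖(derivative p).eval y - (N + 1 : ℂ) * y ^ N‖ ≤ (N + 1) * (N * 2 ^ N * M) := by
    intro y hy
    rw [mem_closedBall_zero_iff] at hy
    rw [hder, ← mul_sub, norm_mul]
    have : ‖(N + 1 : ℂ)‖ = (N + 1 : ℝ) := by
      have : (N + 1 : ℂ) = ((N + 1 : ℝ) : ℂ) := by push_cast; rfl
      rw [this, Complex.norm_real, Real.norm_eq_abs, abs_of_pos (by positivity)]
    rw [this]
    exact mul_le_mul_of_nonneg_left (prod_sub_pow v hM0 hM1 hvM hy) (by positivity)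
  have hd : ∀ y ∈ Metric.closedBall (0 : ℂ) 1,
      HasDerivWithinAt (fun y => p.eval y - y ^ (N + 1))
        ((derivative p).eval y - (N + 1 : ℂ) * y ^ N) (Metric.closedBall (0 : ℂ) 1) y := by
    intro y _
    have h1 : HasDerivAt (fun y : ℂ => y ^ (N + 1)) ((N + 1 : ℂ) * y ^ N) y := by
      have := hasDerivAt_pow (N + 1) y
      simpa using this
    exact ((p.hasDerivAt y).sub h1).hasDerivWithinAt
  have h := (convex_closedBall (0 : ℂ) 1).norm_image_sub_le_of_norm_hasDerivWithin_le hd hbound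
    (x := a) (y := x) (by simpa using ha1) (by simpa using hx)
  have h2 : p.eval x - x ^ (N + 1) - (p.eval a - a ^ (N + 1)) =
      p.eval x - (x ^ (N + 1) - a ^ (N + 1)) := by
    rw [hpa]; ring
  rw [h2] at h
  have h3 : ‖x - a‖ ≤ 2 := (norm_sub_le _ _).trans (by linarith)
  refine h.trans ?_
  have h4 : 0 ≤ ((N : ℝ) + 1) * (N * 2 ^ N * M) := by positivity
  have h5 := mul_le_mul_of_nonneg_left h3 h4
  linarith

/-- **One exponent below two for all degrees, with a remainder, and stability.** There are an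
absolute exponent `s₁ < 2` and thresholds `σ n ≤ s₁`, `σ n → 1`, such that for every degree
`n ≥ 2` there are `c > 0` and `K` with the following property. Let `p` be a polynomial of degree `n`
with all zeros in the closed unit disc and `a` a zero of `p`. -/
theorem result : ∃ (s₁ : ℝ) (σ : ℕ → ℝ), s₁ < 2 ∧ (∀ n, σ n ≤ s₁) ∧ Tendsto σ atTop (𝓝 1) ∧
    ∀ n : ℕ, 2 ≤ n → ∃ c K : ℝ, 0 < c ∧
      ∀ p : ℂ[X], p.natDegree = n → (∀ z ∈ p.roots, ‖z‖ ≤ 1) → ∀ a ∈ p.roots,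
        -- (1) all exponents `s ≥ σ n`, with a remainder
        (a ∉ (derivative p).roots → ∀ s : ℝ, σ n ≤ s →
          ((n - 1 : ℕ) : ℝ) +
              c * ((1 - ‖a‖) + ((derivative p).roots.map (fun w : ℂ => ‖w‖ ^ 2)).sum)
            ≤ ((derivative p).roots.map (fun w : ℂ => ‖w - a‖⁻¹ ^ s)).sum) ∧
        -- (2) Sendov's conjecture with a remainder
        (∃ w ∈ (derivative p).roots, ‖w - a‖ ≤
          1 - c * ((1 - ‖a‖) + ((derivative p).roots.map (fun w : ℂ => ‖w‖ ^ 2)).sum)) ∧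
        -- (3) near equality in Sendov's conjecture only near `x^n - a^n`, `|a| = 1`
        (∀ t : ℝ, p.Monic → (∀ w ∈ (derivative p).roots, 1 - t ≤ ‖w - a‖) →
          1 - ‖a‖ ≤ K * t ∧ ∀ x : ℂ, ‖x‖ ≤ 1 → ‖p.eval x - (x ^ n - a ^ n)‖ ≤ K * Real.sqrt t) := by
  obtain ⟨s₁, σ, hs1, hσ, hlim, hP⟩ := Uni.thresholds
  refine ⟨s₁, σ, hs1, fun n => (hσ n).2, hlim, ?_⟩
  intro n hn
  obtain ⟨N, rfl⟩ : ∃ N, n = N + 1 := ⟨n - 1, by omega⟩
  have hN : 1 ≤ N := by omega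
  have hN' : (1 : ℝ) ≤ N := by exact_mod_cast hN
  obtain ⟨s₀, hs₀⟩ : ∃ s₀, s₀ = σ (N + 1) := ⟨_, rfl⟩
  have hPN := hP (N + 1) hn
  rw [Nat.add_sub_cancel, ← hs₀] at hPN
  have hs0 : 0 < s₀ := by rw [hs₀]; linarith [(hσ (N + 1)).1]
  have hs2 : s₀ < 2 := by rw [hs₀]; exact (hσ (N + 1)).2.trans_lt hs1
  rw [← hs₀]
  obtain ⟨c, hc, H₀⟩ := hPN
  have H : ∀ (a : ℝ) (z w : Fin N → ℂ), 0 ≤ a → a ≤ 1 → (∀ j, ‖z j‖ ≤ 1) → Crit a z w →
      (∃ k, w k = (a : ℂ)) ∨ ∀ s : ℝ, s₀ ≤ s →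
      (N : ℝ) + c * ((1 - a) + ∑ k, ‖w k‖ ^ 2) ≤ ∑ k, ‖w k - (a : ℂ)‖⁻¹ ^ s := by
    intro a z w ha0 ha1 hz hcrit
    rcases H₀ a z w ha0 ha1 hz hcrit with h | h
    · exact Or.inl h
    · refine Or.inr fun s hs => ?_
      have h2 : 0 ≤ ∑ k, ‖w k‖ ^ 2 := Finset.sum_nonneg fun _ _ => sq_nonneg _
      exact Com.sum_bern (fun k => ‖w k - (a : ℂ)‖⁻¹) (fun k => by positivity) hs0 hs
        (by linarith) hc.le h
  -- constants
  obtain ⟨c', hc'⟩ : ∃ c' : ℝ, c' = min (min c (1 / (N + 1))) (c / (2 * N * (1 + 2 * c))) :=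
    ⟨_, rfl⟩
  have hc'0 : 0 < c' := by rw [hc']; positivity
  have hc'1 : c' ≤ c := by rw [hc']; exact (min_le_left _ _).trans (min_le_left _ _)
  have hc'2 : c' ≤ 1 / (N + 1) := by rw [hc']; exact (min_le_left _ _).trans (min_le_right _ _)
  have hc'3 : c' ≤ c / (2 * N * (1 + 2 * c)) := by rw [hc']; exact min_le_right _ _
  obtain ⟨K, hK⟩ : ∃ K : ℝ, K = max (1 / c') ((2 * ((N + 1) * (N * 2 ^ N))) * Real.sqrt (1 / c')) :=
    ⟨_, rfl⟩
  refine ⟨c', K, hc'0, ?_⟩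
  intro p hpn hp a ha
  obtain ⟨u, z, w, hu, hau, hz, hcrit, hr⟩ := Gen.data hpn hp ha
  have ha1 : ‖a‖ ≤ 1 := hp a ha
  have hH := H ‖a‖ z w (norm_nonneg _) ha1 hz hcrit
  have hwn : ∀ k, ‖w k‖ ≤ 1 := fun k => Com.crit_norm (norm_nonneg _) ha1 hz hcrit k
  obtain ⟨X, hX⟩ : ∃ X : ℝ, X = (1 - ‖a‖) + ∑ k, ‖w k‖ ^ 2 := ⟨_, rfl⟩
  have hS0 : 0 ≤ ∑ k, ‖w k‖ ^ 2 := Finset.sum_nonneg fun _ _ => sq_nonneg _
  have hX0 : 0 ≤ X := by rw [hX]; linarith
  have hXN : X ≤ N + 1 := by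
    have h2 : ∑ k, ‖w k‖ ^ 2 ≤ ∑ _k : Fin N, (1 : ℝ) :=
      Finset.sum_le_sum fun k _ => pow_le_one₀ (norm_nonneg _) (hwn k)
    simp only [Finset.sum_const, Finset.card_univ, Fintype.card_fin, nsmul_eq_mul, mul_one] at h2
    have := norm_nonneg a
    rw [hX]; linarith
  have hmem : ∀ k, u * w k ∈ (derivative p).roots := fun k => by
    rw [hr]; exact Multiset.mem_map_of_mem _ (Finset.mem_univ_val k)
  have hnorm : ∀ k, ‖u * w k - a‖ = ‖w k - ((‖a‖ : ℝ) : ℂ)‖ := by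
    intro k
    conv_lhs => rw [hau]
    rw [← mul_sub, norm_mul, hu, one_mul]
  have hSendov : ∃ w ∈ (derivative p).roots, ‖w - a‖ ≤ 1 - c' * X := by
    have hexw : (∃ k, w k = ((‖a‖ : ℝ) : ℂ)) ∨ ∃ k, ‖w k - ((‖a‖ : ℝ) : ℂ)‖ ≤ 1 - c' * X := by
      by_cases hex : ∃ k, w k = ((‖a‖ : ℝ) : ℂ)
      · exact Or.inl hex
      · right
        rcases hH with h | h
        · exact absurd h hex
        · push Not at hex
          have h2 := h 2 hs2.le
          rw [← hX] at h2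
          obtain ⟨k, hk⟩ := close hN (fun k => ‖w k - ((‖a‖ : ℝ) : ℂ)‖)
            (fun k => norm_pos_iff.2 (sub_ne_zero.2 (hex k))) hc hX0 hXN h2
          refine ⟨k, hk.trans ?_⟩
          have := mul_le_mul_of_nonneg_right hc'3 hX0
          linarith
    rcases hexw with ⟨k, hk⟩ | ⟨k, hk⟩
    · refine ⟨u * w k, hmem k, ?_⟩
      rw [hnorm, hk, sub_self, norm_zero]
      have h3 : c' * X ≤ 1 / (N + 1) * (N + 1) :=
        mul_le_mul hc'2 hXN hX0 (by positivity)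
      rw [div_mul_cancel₀ _ (by positivity)] at h3
      linarith
    · exact ⟨u * w k, hmem k, by rw [hnorm]; exact hk⟩
  have hXs : (1 - ‖a‖) + ((derivative p).roots.map (fun w : ℂ => ‖w‖ ^ 2)).sum = X := by
    rw [hr, sum_map_sq hu, hX]
  refine ⟨?_, ?_, ?_⟩
  · intro hnot s hs
    rw [hXs, hr, sum_map_mul hu hau]
    rcases hH with ⟨k, hk⟩ | h
    · exfalso
      apply hnot
      have := hmem k
      rw [hk, ← hau] at this
      exact this
    · have h2 := h s hs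
      rw [← hX] at h2
      have h3 := mul_le_mul_of_nonneg_right hc'1 hX0
      simp only [Nat.add_sub_cancel]
      linarith
  · rw [hXs]; exact hSendov
  · intro η hmonic hη
    obtain ⟨w₁, hw₁, hw₁'⟩ := hSendov
    have h1 := hη w₁ hw₁
    have h2 : c' * X ≤ η := by linarith
    have hη0 : 0 ≤ η := le_trans (by positivity) h2
    have h3 : X ≤ 1 / c' * η := by
      rw [one_div, ← div_eq_inv_mul, le_div_iff₀ hc'0]
      linarith
    have hK1 : 1 / c' ≤ K := by rw [hK]; exact le_max_left _ _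
    have hK2 : (2 * ((N + 1) * (N * 2 ^ N))) * Real.sqrt (1 / c') ≤ K := by
      rw [hK]; exact le_max_right _ _
    refine ⟨?_, ?_⟩
    · have h4 : 1 - ‖a‖ ≤ X := by rw [hX]; linarith
      have h5 := mul_le_mul_of_nonneg_right hK1 hη0
      linarith
    · intro x hx
      obtain ⟨M, hM⟩ : ∃ M : ℝ, M = min 1 (Real.sqrt (1 / c' * η)) := ⟨_, rfl⟩
      have hM0 : 0 ≤ M := by rw [hM]; exact le_min (by norm_num) (Real.sqrt_nonneg _)
      have hM1 : M ≤ 1 := by rw [hM]; exact min_le_left _ _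
      have hvM : ∀ k, ‖u * w k‖ ≤ M := by
        intro k
        rw [norm_mul, hu, one_mul, hM]
        refine le_min (hwn k) ?_
        apply Real.le_sqrt_of_sq_le
        have h6 : ‖w k‖ ^ 2 ≤ ∑ k, ‖w k‖ ^ 2 :=
          Finset.single_le_sum (f := fun k => ‖w k‖ ^ 2) (fun _ _ => sq_nonneg _)
            (Finset.mem_univ k)
        have h7 : ∑ k, ‖w k‖ ^ 2 ≤ X := by rw [hX]; linarith
        linarith
      have h8 := near hpn hmonic ha1 ha (fun k => u * w k) hr hM0 hM1 hvM x hx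
      refine h8.trans ?_
      have h9 : M ≤ Real.sqrt (1 / c') * Real.sqrt η := by
        rw [hM, ← Real.sqrt_mul (by positivity)]
        exact min_le_right _ _
      have h10 : 0 ≤ 2 * (((N : ℝ) + 1) * (N * 2 ^ N)) := by positivity
      have h11 := mul_le_mul_of_nonneg_left h9 h10
      have h12 := mul_le_mul_of_nonneg_right hK2 (Real.sqrt_nonneg η)
      linarith

end Pool.Agent.Results.MP_f0bc87_an.AbsoluteExponent
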