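import Pool.Agent.H957.SE.Gen
import Pool.Agent.H957.SE.Loc2
import Pool.Agent.H957.SE.E2a
import Pool.Agent.H957.SE.E2b
import Pool.Agent.H957.SE.Coef2
import Pool.Agent.H957.SE.Rec
import Pool.Agent.H957.SE.Refl
import Pool.Agent.H957.SE.Three
import Pool.Agent.H957.SE.Geo

set_option autoImplicit false

/-!
# Which power means are at most one near `z^n - a^n`?

`p` is a polynomial of degree `n` with all zeros in the closed unit disc, `a` a zero of `p`, `w` runs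
over the critical points with multiplicity, and `(1 - |a|) + ∑ |w|^2` measures the distance of
`(p, a)` from the extremal pairs `c (z^n - a^n)`, `|a| = 1`. Locally, `∑ |w - a|^(-s) ≥ n - 1` holds
for every `s > 0` if `n ≥ 4`, for every `s > 1` and no `0 < s < 1` if `n = 3`, and the geometric mean
is not admissible in any degree `n ≥ 3`.
-/

open Polynomial

namespace Pool.Agent.Results.MP_f0bc87_an.LocalExponents

open Pool.Agent.H957.SE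

theorem e2all : ∀ m, StE2 m := by
  intro m
  cases m with
  | zero => exact E2b.main Coef2.main Rec.main Refl.main
  | succ m => exact E2a.main Coef2.main Rec.main Refl.main m

theorem loc2 : StLoc2 := Loc2.loc2 Int.main Cen.main Sum.main Term.main e2all

/-- real distinguished zero, at least three critical points -/
theorem real_local2 (N : ℕ) (hN : 3 ≤ N) (s : ℝ) (hs0 : 0 < s) :
    ∃ δ c : ℝ, 0 < δ ∧ 0 < c ∧
    ∀ (a : ℝ) (z w : Fin N → ℂ), a ≤ 1 → (∀ j, ‖z j‖ ≤ 1) → Crit a z w →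
      (1 - a) + ∑ k, ‖w k‖ ^ 2 ≤ δ →
      (N : ℝ) + c * ((1 - a) + ∑ k, ‖w k‖ ^ 2) ≤ ∑ k, ‖w k - (a : ℂ)‖⁻¹ ^ s := by
  obtain ⟨m, rfl⟩ : ∃ m, N = m + 3 := ⟨N - 3, by omega⟩
  obtain ⟨δ, c, hδ, hc, H⟩ := loc2 m (min s 2) (lt_min hs0 (by norm_num)) (min_le_right _ _)
  refine ⟨min δ (δ ^ 2), c, lt_min hδ (by positivity), hc, ?_⟩
  intro a z w ha1 hz hcrit hX
  have h0 : 0 ≤ ∑ k, ‖w k‖ ^ 2 := Finset.sum_nonneg fun _ _ => sq_nonneg _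
  have h1 : 1 - δ ≤ a := by
    have := hX.trans (min_le_left _ _)
    linarith
  have h2 : ∀ k, ‖w k‖ ≤ δ := by
    intro k
    have h3 : ‖w k‖ ^ 2 ≤ ∑ k, ‖w k‖ ^ 2 :=
      Finset.single_le_sum (f := fun k => ‖w k‖ ^ 2) (fun _ _ => sq_nonneg _) (Finset.mem_univ k)
    have h4 : ‖w k‖ ^ 2 ≤ δ ^ 2 := by
      have := hX.trans (min_le_right _ _)
      linarith
    exact (pow_le_pow_iff_left₀ (norm_nonneg _) hδ.le (by norm_num)).1 h4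
  have h3 := H a z w h1 ha1 hz hcrit h2
  exact Com.sum_bern (fun k => ‖w k - (a : ℂ)‖⁻¹) (fun k => by positivity)
    (lt_min hs0 (by norm_num)) (min_le_left _ _) (by linarith) hc.le h3

lemma sum_map_mul {N : ℕ} {c a : ℂ} {w : Fin N → ℂ} (hc : ‖c‖ = 1)
    (ha : a = c * ((‖a‖ : ℝ) : ℂ)) (s : ℝ) :
    ((Multiset.map (fun k => c * w k) Finset.univ.val).map (fun x : ℂ => ‖x - a‖⁻¹ ^ s)).sum =
      ∑ k, ‖w k - ((‖a‖ : ℝ) : ℂ)‖⁻¹ ^ s := by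
  rw [Multiset.map_map]
  change ∑ k, ‖c * w k - a‖⁻¹ ^ s = _
  refine Finset.sum_congr rfl fun k _ => ?_
  have : ‖c * w k - a‖ = ‖w k - ((‖a‖ : ℝ) : ℂ)‖ := by
    conv_lhs => rw [ha]
    rw [← mul_sub, norm_mul, hc, one_mul]
  rw [this]

lemma sum_map_sq {N : ℕ} {c : ℂ} {w : Fin N → ℂ} (hc : ‖c‖ = 1) :
    ((Multiset.map (fun k => c * w k) Finset.univ.val).map (fun x : ℂ => ‖x‖ ^ 2)).sum =
      ∑ k, ‖w k‖ ^ 2 := by
  rw [Multiset.map_map]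
  change ∑ k, ‖c * w k‖ ^ 2 = _
  refine Finset.sum_congr rfl fun k _ => ?_
  rw [norm_mul, hc, one_mul]

/-- from a real distinguished zero to a general polynomial -/
theorem transfer {N : ℕ} {s δ c : ℝ}
    (H : ∀ (a : ℝ) (z w : Fin N → ℂ), a ≤ 1 → (∀ j, ‖z j‖ ≤ 1) → Crit a z w →
      (1 - a) + ∑ k, ‖w k‖ ^ 2 ≤ δ →
      (N : ℝ) + c * ((1 - a) + ∑ k, ‖w k‖ ^ 2) ≤ ∑ k, ‖w k - (a : ℂ)‖⁻¹ ^ s)
    (p : ℂ[X]) (hpn : p.natDegree = N + 1) (hp : ∀ z ∈ p.roots, ‖z‖ ≤ 1) (a : ℂ) (ha : a ∈ p.roots)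
    (hsmall : (1 - ‖a‖) + ((derivative p).roots.map (fun w : ℂ => ‖w‖ ^ 2)).sum ≤ δ) :
    (N : ℝ) + c * ((1 - ‖a‖) + ((derivative p).roots.map (fun w : ℂ => ‖w‖ ^ 2)).sum)
            ≤ ((derivative p).roots.map (fun w : ℂ => ‖w - a‖⁻¹ ^ s)).sum := by
  obtain ⟨u, z, w, hu, hau, hz, hcrit, hr⟩ := Gen.data hpn hp ha
  have ha1 : ‖a‖ ≤ 1 := hp a ha
  rw [hr, sum_map_sq hu] at hsmall
  rw [hr, sum_map_sq hu, sum_map_mul hu hau]
  exact H ‖a‖ z w ha1 hz hcrit hsmall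

/-- **Local exponents.** -/
theorem result :
    -- (1) degree `n ≥ 4`: every `s > 0`, with a remainder; degree three: every `s > 1`
    (∀ (n : ℕ) (s : ℝ), (4 ≤ n ∧ 0 < s) ∨ (n = 3 ∧ 1 < s) → ∃ δ c : ℝ, 0 < δ ∧ 0 < c ∧
      ∀ p : ℂ[X], p.natDegree = n → (∀ z ∈ p.roots, ‖z‖ ≤ 1) → ∀ a ∈ p.roots,
        (1 - ‖a‖) + ((derivative p).roots.map (fun w : ℂ => ‖w‖ ^ 2)).sum ≤ δ →
        ((n - 1 : ℕ) : ℝ) +
              c * ((1 - ‖a‖) + ((derivative p).roots.map (fun w : ℂ => ‖w‖ ^ 2)).sum)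
            ≤ ((derivative p).roots.map (fun w : ℂ => ‖w - a‖⁻¹ ^ s)).sum) ∧
    -- (2) degree three: no `0 < s < 1`
    (∀ s : ℝ, 0 < s → s < 1 → ∀ δ : ℝ, 0 < δ → ∃ p : ℂ[X], p.natDegree = 3 ∧ p.Monic ∧
      (∀ z ∈ p.roots, ‖z‖ ≤ 1) ∧ (1 : ℂ) ∈ p.roots ∧ (1 : ℂ) ∉ (derivative p).roots ∧
      ((derivative p).roots.map (fun w : ℂ => ‖w‖ ^ 2)).sum ≤ δ ∧
      ((derivative p).roots.map (fun w : ℂ => ‖w - 1‖⁻¹ ^ s)).sum < 2) ∧
    -- (3) degree `n ≥ 3`: not the geometric mean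
    (∀ n : ℕ, 3 ≤ n → ∀ δ : ℝ, 0 < δ → ∃ p : ℂ[X], p.natDegree = n ∧ p.Monic ∧
      (∀ z ∈ p.roots, ‖z‖ ≤ 1) ∧ (1 : ℂ) ∈ p.roots ∧ (1 : ℂ) ∉ (derivative p).roots ∧
      ((derivative p).roots.map (fun w : ℂ => ‖w‖ ^ 2)).sum ≤ δ ∧
      1 < ((derivative p).roots.map (fun w : ℂ => ‖w - 1‖)).prod) := by
  refine ⟨?_, Three.main, Geo.main⟩
  intro n s hns
  obtain ⟨N, rfl⟩ : ∃ N, n = N + 1 := ⟨n - 1, by omega⟩
  rcases hns with ⟨hn, hs⟩ | ⟨hn, hs⟩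
  · obtain ⟨δ, c, hδ, hc, H⟩ := real_local2 N (by omega) s hs
    refine ⟨δ, c, hδ, hc, fun p hpn hp a ha hsmall => ?_⟩
    simp only [Nat.add_sub_cancel]
    exact transfer H p hpn hp a ha hsmall
  · obtain rfl : N = 2 := by omega
    obtain ⟨δ, c, hδ, hc, H⟩ := Gen.real_local 2 s (by linarith) (by push_cast; linarith)
    refine ⟨δ, c, hδ, hc, fun p hpn hp a ha hsmall => ?_⟩
    simp only [Nat.add_sub_cancel]
    exact transfer H p hpn hp a ha hsmall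

end Pool.Agent.Results.MP_f0bc87_an.LocalExponents
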